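import Pool.Agent.H677R3.AbChord

/-!
# reg I(G)^q ≤ 2q + co-chord(G) − 1 for every graph, every field and every q ≥ 1

Definitions used (files `Pool.Agent.H677R3.RegKoszul`, `RegDeg` and `AbChord`):
* `edgeIdeal k G` is the ideal of `k[x_0,…,x_{n-1}]` spanned by the `x_i x_j`, `i` adjacent to `j`;
* `Chordal C`: `C` has no induced cycle of length `m ≥ 4` (no graph embedding of `cycleGraph m`);
* `koszulD` is the Koszul differential of the variables; a Koszul chain assigns to every finite
  set `T` of variables the coefficient of `e_T`;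
* `TorNe J i e`: the Koszul homology `H_i(x_1,…,x_n; J) = Tor_i(J, k)` is nonzero in internal
  degree `i + e`;
* `IsReg J r`: `r` is the greatest `e` such that `TorNe J i e` for some `i`, i.e. `reg J = r`.
-/

universe u

namespace Pool.Agent.Results.MP_9b0fed_al.CochordalCover

open Pool.Agent.H677R3.EdgeReg Pool.Agent.H677R3.Ab

theorem result : ∀ (k : Type u) [Field k] (n : ℕ) (G : SimpleGraph (Fin n)), (∃ u v, G.Adj u v) →
    ∀ (t : ℕ) (H : Fin t → G.Subgraph), (∀ i, Chordal ((H i).coe)ᶜ) →
    (∀ u v, G.Adj u v → ∃ i, (H i).Adj u v) →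
    ∀ q : ℕ, 1 ≤ q → ∃ s : ℕ, IsReg ((edgeIdeal k G) ^ q) s ∧ s + 1 ≤ 2 * q + t := by
  intro k _ n G hG t H hH hcov q hq
  exact cochord_bound k G hG t H hH hcov q hq

end Pool.Agent.Results.MP_9b0fed_al.CochordalCover
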